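import Pool.Agent.H79.CEX.Defs
import Pool.Agent.H79.CEX.Proof

/-!
The critical exponent `t_k` of the dimension in the randomized integration error on the classes
`F_d^k` is `0` for every `k ≥ 1`.
-/

namespace Pool.Agent.Results.MP_7d5d9e_an.CriticalExponent

open Pool.CEX

/-- For every `k ≥ 1` the set of admissible exponents of `d` has least element `0`; in particular
its infimum `t_k` equals `0`. -/
theorem result (k : ℕ) (hk : 1 ≤ k) : IsLeast (exponents k) 0 ∧ sInf (exponents k) = 0 :=
  main k hk

end Pool.Agent.Results.MP_7d5d9e_an.CriticalExponent
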